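import Pool.Agent.helper43.KG.Spec

set_option autoImplicit false

/-!
# Row kg:ROA (MP_cef0b4_gt): a vector with r-norm and 2-norm of a vector of ones is close to it
-/

namespace Pool.Agent.helper43.KG

open Finset

theorem ROA_amgm (r u : ℝ) (h1 : 1 ≤ r) (h2 : r < 2) (hu : 0 ≤ u) :
    u ^ r ≤ (2 - r) * u + (r - 1) * u ^ 2 := by
  rcases hu.eq_or_lt with h0 | h0
  · rw [← h0, Real.zero_rpow (by linarith)]
    norm_num
  · have h := Real.geom_mean_le_arith_mean2_weighted (w₁ := 2 - r) (w₂ := r - 1) (p₁ := u)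
      (p₂ := u ^ 2) (by linarith) (by linarith) hu (by positivity) (by ring)
    have e : u ^ (2 - r) * (u ^ 2) ^ (r - 1) = u ^ r := by
      rw [← Real.rpow_natCast u 2, ← Real.rpow_mul hu, ← Real.rpow_add h0]
      congr 1
      push_cast
      ring
    rw [e] at h
    exact h

theorem t_roa : ROA := by
  intro r ε h1 h2 hε
  have h3 : 0 < 2 - r := by linarith
  refine ⟨ε ^ 2 * (2 - r) / 6, by positivity, ?_⟩
  intro d u hu hr hs
  have hd : (0 : ℝ) ≤ d := Nat.cast_nonneg d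
  have hA : ∑ j, u j ^ r ≤ (2 - r) * ∑ j, u j + (r - 1) * ∑ j, u j ^ 2 := by
    rw [Finset.mul_sum, Finset.mul_sum, ← Finset.sum_add_distrib]
    exact Finset.sum_le_sum fun j _ => ROA_amgm r (u j) h1 h2 (hu j)
  have hB : (r - 1) * ∑ j, u j ^ 2 ≤ (r - 1) * ((1 + ε ^ 2 * (2 - r) / 6) * d) :=
    mul_le_mul_of_nonneg_left hs (by linarith)
  have hC : (2 - r) * (d - r * (ε ^ 2 / 6) * d) ≤ (2 - r) * ∑ j, u j := by nlinarith
  have hD : d - r * (ε ^ 2 / 6) * d ≤ ∑ j, u j := le_of_mul_le_mul_left hC h3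
  have hE : ∑ j, (u j - 1) ^ 2 = ∑ j, u j ^ 2 - 2 * ∑ j, u j + d := by
    have : ∀ j, (u j - 1) ^ 2 = u j ^ 2 - 2 * u j + 1 := fun j => by ring
    simp only [this]
    rw [Finset.sum_add_distrib, Finset.sum_sub_distrib, ← Finset.mul_sum]
    simp
  have hF : ∑ j, (u j - 1) ^ 2 ≤ ε ^ 2 * d := by
    rw [hE]
    have h5 : 0 ≤ ε ^ 2 * d := by positivity
    have h6 : r * (ε ^ 2 * d) ≤ 2 * (ε ^ 2 * d) := mul_le_mul_of_nonneg_right h2.le h5
    nlinarith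
  have hG : (∑ j, |u j - 1|) ^ 2 ≤ d * ∑ j, |u j - 1| ^ 2 := by
    have h := sq_sum_le_card_mul_sum_sq (s := (univ : Finset (Fin d))) (f := fun j => |u j - 1|)
    simpa using h
  have hH : (∑ j, |u j - 1|) ^ 2 ≤ (ε * d) ^ 2 := by
    have h7 : ∑ j, |u j - 1| ^ 2 = ∑ j, (u j - 1) ^ 2 := by simp only [sq_abs]
    rw [h7] at hG
    calc (∑ j, |u j - 1|) ^ 2 ≤ d * ∑ j, (u j - 1) ^ 2 := hG
      _ ≤ d * (ε ^ 2 * d) := mul_le_mul_of_nonneg_left hF hd
      _ = (ε * d) ^ 2 := by ring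
  exact abs_le_of_sq_le_sq' hH (by positivity) |>.2

end Pool.Agent.helper43.KG
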